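import Mathlib
import Pool.Agent.Lib_helper68.OG10
import Pool.Agent.Lib_helper80.CP.Main

set_option autoImplicit false

namespace Pool.Agent.H80Old.MP931CofMeagerSuffices

/-- `P(α)`: every graph whose vertex set is (the canonical well-ordered set of type) `α` has an
infinite path, i.e. an injective sequence of vertices with consecutive terms adjacent, or a set
of pairwise non-adjacent vertices of order type exactly `α`. -/
def PathOrIndep (α : Ordinal.{0}) : Prop :=
  ∀ G : SimpleGraph α.ToType,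
    (∃ f : ℕ → α.ToType, Function.Injective f ∧ ∀ n, G.Adj (f n) (f (n + 1))) ∨
    (∃ S : Set α.ToType, (∀ x ∈ S, ∀ y ∈ S, ¬ G.Adj x y) ∧
      Ordinal.type (fun x y : S => x < y) = α)

/-- `P(ω₁ ^ (ω + 2))` from the combinatorial principle -/
theorem P_of_hh (hH : Pool.Agent.CP.HH Pool.Agent.CP.W1) :
    PathOrIndep ((Cardinal.aleph 1).ord ^ (Ordinal.omega0 + 2)) := by
  set α : Ordinal.{0} := (Cardinal.aleph 1).ord ^ (Ordinal.omega0 + 2) with hα
  have hpos : 0 < (Cardinal.aleph 1 : Cardinal.{0}).ord := by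
    rw [pos_iff_ne_zero, Ne, Cardinal.ord_eq_zero]
    exact (Cardinal.aleph_pos 1).ne'
  have hαpos : 0 < α := Ordinal.opow_pos _ hpos
  have : Nonempty α.ToType := by
    rw [← Cardinal.mk_ne_zero_iff, Cardinal.mk_toType]
    intro h
    rw [Ordinal.card_eq_zero] at h
    exact hαpos.ne' h
  have hω : Ordinal.omega0 ≤ (Cardinal.aleph 1 : Cardinal.{0}).ord := by
    rw [← Cardinal.ord_aleph0]
    exact Cardinal.ord_le_ord.2 (Cardinal.aleph0_le_aleph 1)
  have hcard : Cardinal.mk α.ToType ≤ Cardinal.mk Pool.Agent.CP.W1 := by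
    rw [Cardinal.mk_toType, Cardinal.mk_toType, Cardinal.card_ord]
    refine (Ordinal.card_opow_le_of_omega0_le_left hω _).trans ?_
    rw [Cardinal.card_ord]
    refine max_le le_rfl ?_
    rw [Ordinal.card_add, Ordinal.card_omega0]
    refine (Cardinal.add_le_aleph0.2 ⟨le_rfl, ?_⟩).trans (Cardinal.aleph0_le_aleph 1)
    have h2 : (2 : Ordinal.{0}) = ((2 : ℕ) : Ordinal.{0}) := by norm_num
    rw [h2, Ordinal.card_nat]
    exact (Cardinal.natCast_lt_aleph0 (n := 2)).le
  obtain ⟨r⟩ : Nonempty (α.ToType ↪ Pool.Agent.CP.W1) := hcard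
  intro G
  by_cases hG : ∃ f : ℕ → α.ToType, Function.Injective f ∧ ∀ n, G.Adj (f n) (f (n + 1))
  · exact Or.inl hG
  · right
    obtain ⟨X, hX1, hX2⟩ := Pool.Agent.CP.graph_pos hH
      (Pool.Agent.H68.OG.tg_of_le_typ (Pool.Agent.H68.OG.typ_univ α).ge) r r.injective G hG
    exact ⟨X, hX1, Pool.Agent.H68.OG.typ_eq_of_tg hX2⟩

/-- If `P(ω₁ ^ (ω + 2))` fails, then some `ℵ₁` functions dominate all functions and some `ℵ₁`
functions are such that every function agrees infinitely often with one of them. -/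
theorem result (hP : ¬ PathOrIndep ((Cardinal.aleph 1).ord ^ (Ordinal.omega0 + 2))) :
    (∃ D : (Cardinal.aleph 1 : Cardinal.{0}).ord.ToType → ℕ → ℕ,
      ∀ f : ℕ → ℕ, ∃ ξ, ∀ n, f n ≤ D ξ n) ∧
    (∃ E : (Cardinal.aleph 1 : Cardinal.{0}).ord.ToType → ℕ → ℕ,
      ∀ f : ℕ → ℕ, ∃ ξ, {n | f n = E ξ n}.Infinite) := by
  refine ⟨?_, ?_⟩
  · by_contra hcon
    push Not at hcon
    refine hP (P_of_hh (Pool.Agent.CP.hh_of_ndom Pool.Agent.CP.w1_equiv.some ?_))
    intro D
    obtain ⟨f, hf⟩ := hcon D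
    exact ⟨f, fun z => hf z⟩
  · by_contra hcon
    push Not at hcon
    refine hP (P_of_hh (Pool.Agent.CP.hh_of_edif ?_))
    intro E
    obtain ⟨f, hf⟩ := hcon E
    exact ⟨f, fun z => hf z⟩

end Pool.Agent.H80Old.MP931CofMeagerSuffices
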