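import Pool.Agent.Lib_helper80.IS.Irr

/-!
# MP_45e720_ag: Lang's question for irregular surfaces

`X` is a compact connected complex surface with ample canonical bundle (`CanonicalAmple`), such that
some finite unramified covering of `X` (for instance `X` itself) has a nonconstant holomorphic map
to a complex torus (`IrregularCovering`; for projective surfaces this says that the covering has
`q > 0`). The theorem: `X` is Kobayashi hyperbolic if and only if all holomorphic maps from complex
tori to `X` are constant; it even suffices that all holomorphic maps from elliptic curves to `X` are
constant, that is `X` contains no rational and no elliptic curves. By the classification of
surfaces, a projective surface without nonconstant maps from tori has an ample canonical bundle, so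
this answers the question for all projective surfaces with `q > 0`.

Idea of the proof. A finite unramified covering `X'` of `X` satisfies the same hypotheses, and entire
curves lift to `X'`; so let `X` itself have a nonconstant map `φ` to a torus `W / Γ`.

(1) By the theorem on hyperbolicity modulo tori (`HyperbolicityModuloTori`) it suffices that there is
no nonconstant Brody curve `h` in `X` which is annihilated by all invariant jet differentials; such a
curve lies in a fibre of `φ`.

(2) The pluricanonical forms `a_0, …, a_n` of some degree `k` immerse `X` in a projective space. One
obtains a pluricanonical form which vanishes along `h` but not identically, or a holomorphic map from
`X` to an elliptic curve which is constant along `h`: let `Φ` be the derivative of `φ`, a one-form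
with values in `W`. If two components of `Φ` are linearly independent at some point, then their wedge
product is a canonical form which vanishes along `h`. If not, let `ω` be a nonzero component of `Φ`. If
`ω` vanishes at the points of `h`, then `ω ∧ (a_p d a_q - a_q d a_p)` is a pluricanonical form of degree
`2 k + 1` which vanishes along `h`, and it is not zero for some `p`, `q`. Otherwise there is a constant
vector `c` such that `Φ = ω ⊗ c` at the points of `h` (symmetry of the second derivatives); if this
does not hold on `X`, then a component of `Φ - ω ⊗ c` plays the role of `ω`; if it holds on `X`, then
`φ` takes its values in a translate of the image of the line `ℂ c`, and gives a holomorphic map from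
`X` to `ℂ / Γ'`, `Γ'` discrete; since `X` is compact, `Γ'` is a lattice.

(3) Siegel's lemma: the dimension of a space of polynomials in the coordinates exceeds the number of
conditions for high vanishing at the centres of finitely many balls which cover `X`, and Schwarz's
lemma gives polynomial relations on `X`. Divided by a power of the form (or of the section
belonging to the fibre of the map to the elliptic curve) and restricted to `h` they show that any
three coordinates of `h` in the projective space satisfy a homogeneous relation.

(4) The plane theorem: a nonconstant Brody curve `H` in a projective space with this property is
doubly periodic or of the form `H = P ∘ u` with a holomorphic curve `u : ℂ → ℙ¹` and a rational map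
`P`. Consider the field `K` of the rational functions of the coordinates of `H`, a finite extension
of `ℂ (x)` inside the field of the meromorphic functions of the plane. If it is not `ℂ (u)`, then by a
duality argument there is a regular differential `w dx`; `w x'` is an entire function, bounded since
`H` is a Brody curve, so constant; the values of the elements of `K` are determined by a differential
equation, and recurrence gives the periods.

(5) The map `X → ℙ ^ n` is an immersion of a compact manifold, so that `P` lifts to a holomorphic map
`ℙ¹ → X`, and if `ι ∘ h` is doubly periodic then so is `h`. So there is a nonconstant holomorphic map
from an elliptic curve to `X`.
-/

set_option autoImplicit false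

open scoped Manifold ContDiff

namespace Pool.Agent.Results.MP_45e720_ag.IrregularSurfaces

open Pool.Agent Pool.Agent.BrodyRigid Pool.Agent.StrongLang

theorem result (E X : Type) [NormedAddCommGroup E] [NormedSpace ℂ E] [FiniteDimensional ℂ E]
    [TopologicalSpace X] [CompactSpace X] [T2Space X] [ConnectedSpace X] [ChartedSpace E X]
    [IsManifold 𝓘(ℂ, E) ω X] (hX : CanonicalAmple E X) (hI : IrregularCovering E X) :
    List.TFAE [NoEllipticMaps E X, SS.NoTorusMaps E X, SS.BrodyHyperbolic E X,
      ∀ x : X, HyperbolicAt E x] :=
  IS.irregular_main hX hI

end Pool.Agent.Results.MP_45e720_ag.IrregularSurfaces
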